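import Pool.Agent.Work.CB.Main2

/-!
# Explicit local terms of the dimension formula: definitions (helper59, with helper64)

Everything is relative to the vertex `v`: `det3 v x y z` is the determinant of `x - v`, `y - v`,
`z - v`, `opp v p q` are the vertices opposite to the triangle `v p q` (two for an interior triangle,
one for a boundary triangle, none if `v p q` is not a triangle of `Δ`).
-/

open scoped BigOperators
open Finset

noncomputable section

namespace Pool.CB
namespace TetComplex

variable (Δ : TetComplex)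

/-- The determinant of `x - v`, `y - v`, `z - v`. -/
def det3 (v x y z : E3) : ℝ := Matrix.det (Matrix.of ![x - v, y - v, z - v])

open Classical in
/-- The vertices `a` such that `v p q a` is a tetrahedron of `Δ`. -/
def opp (v p q : E3) : Finset E3 := Δ.vertices.filter (fun a => ({v, p, q, a} : Finset E3) ∈ Δ.tets)

/-- For the interior triangle `v p q` with the opposite vertices `a`, `b`: the number
`det3 v q a b / (|det3 v p q a| * det3 v p q b)`, the coefficient of `p - v` in the linear relation
between `p - v`, `q - v`, `a - v`, `b - v` with the coefficients `1 / |det3 v p q a|` of `a - v` and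
`1 / |det3 v p q b|` of `b - v`. -/
def gco (v p q : E3) : ℝ := 1 / 2 * ∑ a ∈ Δ.opp v p q, ∑ b ∈ Δ.opp v p q,
  det3 v q a b / (|det3 v p q a| * det3 v p q b)

/-- Quadratic local term: antisymmetric functions `w` on the triangles `v p q` with
`∑ q, w p q (q - v) = 0` for every `p`. -/
def Om (v : E3) : Submodule ℝ (E3 → E3 → ℝ) where
  carrier := {w | (∀ p q, w p q + w q p = 0) ∧ (∀ p q, (Δ.opp v p q).card < 1 → w p q = 0) ∧
    ∀ p, ∑ q ∈ Δ.vertices, w p q • (q - v) = 0}
  add_mem' := by
    rintro w w' ⟨h1, h2, h3⟩ ⟨h1', h2', h3'⟩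
    refine ⟨fun p q => ?_, fun p q h => ?_, fun p => ?_⟩
    · have := h1 p q
      have := h1' p q
      simp only [Pi.add_apply]
      linarith
    · simp [h2 p q h, h2' p q h]
    · simp only [Pi.add_apply, add_smul, Finset.sum_add_distrib, h3 p, h3' p, add_zero]
  zero_mem' := ⟨fun _ _ => by simp, fun _ _ _ => rfl, fun _ => by simp⟩
  smul_mem' := by
    rintro c w ⟨h1, h2, h3⟩
    refine ⟨fun p q => ?_, fun p q h => ?_, fun p => ?_⟩
    · simp only [Pi.smul_apply, smul_eq_mul, ← mul_add, h1 p q, mul_zero]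
    · simp [h2 p q h]
    · simp only [Pi.smul_apply, smul_eq_mul, mul_smul, ← Finset.smul_sum, h3 p, smul_zero]

/-- Cubic local term: symmetric functions `s` on the interior triangles `v p q` with
`s p q + s q r + s r p = 0` for every tetrahedron `v p q r` and
`∑ q, s p q * gco v p q (q - v) = 0` for every `p`. -/
def Si (v : E3) : Submodule ℝ (E3 → E3 → ℝ) where
  carrier := {s | (∀ p q, s p q = s q p) ∧ (∀ p q, (Δ.opp v p q).card < 2 → s p q = 0) ∧
    (∀ p q r, ({v, p, q, r} : Finset E3) ∈ Δ.tets → s p q + s q r + s r p = 0) ∧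
    ∀ p, ∑ q ∈ Δ.vertices, (s p q * Δ.gco v p q) • (q - v) = 0}
  add_mem' := by
    rintro w w' ⟨h1, h2, h3, h4⟩ ⟨h1', h2', h3', h4'⟩
    refine ⟨fun p q => ?_, fun p q h => ?_, fun p q r h => ?_, fun p => ?_⟩
    · simp only [Pi.add_apply, h1 p q, h1' p q]
    · simp [h2 p q h, h2' p q h]
    · have := h3 p q r h
      have := h3' p q r h
      simp only [Pi.add_apply]
      linarith
    · simp only [Pi.add_apply, add_mul, add_smul, Finset.sum_add_distrib, h4 p, h4' p, add_zero]
  zero_mem' := ⟨fun _ _ => rfl, fun _ _ _ => rfl, fun _ _ _ _ => by simp, fun _ => by simp⟩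
  smul_mem' := by
    rintro c w ⟨h1, h2, h3, h4⟩
    refine ⟨fun p q => ?_, fun p q h => ?_, fun p q r h => ?_, fun p => ?_⟩
    · simp only [Pi.smul_apply, h1 p q]
    · simp [h2 p q h]
    · simp only [Pi.smul_apply, smul_eq_mul, ← mul_add, h3 p q r h, mul_zero]
    · simp only [Pi.smul_apply, smul_eq_mul, mul_assoc, mul_smul c, ← Finset.smul_sum, h4 p,
        smul_zero]

/-- Quartic local term: functions `s` on the pairs `(p, q)` with an interior triangle `v p q` such
that `s p q + s p r = 0` for every tetrahedron `v p q r`,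
`s p q * gco v q p + s q p * gco v p q = 0` and `∑ q, s p q * gco v p q (q - v) = 0` for every `p`. -/
def Th (v : E3) : Submodule ℝ (E3 → E3 → ℝ) where
  carrier := {s | (∀ p q, s p q * Δ.gco v q p + s q p * Δ.gco v p q = 0) ∧
    (∀ p q, (Δ.opp v p q).card < 2 → s p q = 0) ∧
    (∀ p q r, ({v, p, q, r} : Finset E3) ∈ Δ.tets → s p q + s p r = 0) ∧
    ∀ p, ∑ q ∈ Δ.vertices, (s p q * Δ.gco v p q) • (q - v) = 0}
  add_mem' := by
    rintro w w' ⟨h1, h2, h3, h4⟩ ⟨h1', h2', h3', h4'⟩
    refine ⟨fun p q => ?_, fun p q h => ?_, fun p q r h => ?_, fun p => ?_⟩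
    · have := h1 p q
      have := h1' p q
      simp only [Pi.add_apply, add_mul]
      linarith
    · simp [h2 p q h, h2' p q h]
    · have := h3 p q r h
      have := h3' p q r h
      simp only [Pi.add_apply]
      linarith
    · simp only [Pi.add_apply, add_mul, add_smul, Finset.sum_add_distrib, h4 p, h4' p, add_zero]
  zero_mem' := ⟨fun _ _ => by simp, fun _ _ _ => rfl, fun _ _ _ _ => by simp, fun _ => by simp⟩
  smul_mem' := by
    rintro c w ⟨h1, h2, h3, h4⟩
    refine ⟨fun p q => ?_, fun p q h => ?_, fun p q r h => ?_, fun p => ?_⟩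
    · simp only [Pi.smul_apply, smul_eq_mul, mul_assoc, ← mul_add, h1 p q, mul_zero]
    · simp [h2 p q h]
    · simp only [Pi.smul_apply, smul_eq_mul, ← mul_add, h3 p q r h, mul_zero]
    · simp only [Pi.smul_apply, smul_eq_mul, mul_assoc, mul_smul c, ← Finset.smul_sum, h4 p,
        smul_zero]

end TetComplex

end Pool.CB
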